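import Pool.Agent.R734.CC.Defs

/-!
# Comparison colourings: definitions and the case of pairs
-/

set_option autoImplicit false

namespace Pool.Agent.R734.CC

open Finset

/-- All comparisons `F l (x without x i) < G l (x without x j)` with `i ≤ a < j` have the same
result for all increasing tuples of elements of `S`. -/
def Const {κ α : Type} [LinearOrder α] {s : ℕ} (a : ℕ) (F G : κ → (Fin (s + 1) → ℕ) → α)
    (S : Finset ℕ) : Prop :=
  ∀ x y : Fin (s + 2) → ℕ, StrictMono x → StrictMono y → (∀ i, x i ∈ S) → (∀ i, y i ∈ S) →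
    ∀ (l : κ) (i j : Fin (s + 2)), i.val ≤ a → a < j.val →
      (F l (i.removeNth x) < G l (j.removeNth x) ↔ F l (i.removeNth y) < G l (j.removeNth y))

/-- a transitive relation: chains and antichains -/
theorem chain_antichain (R : ℕ → ℕ → Prop) : ∀ (a b : ℕ) (V : Finset ℕ),
    (∀ x ∈ V, ∀ y ∈ V, ∀ z ∈ V, x < y → y < z → R x y → R y z → R x z) → a * b < V.card →
    (∃ S ⊆ V, S.card = a + 1 ∧ ∀ x ∈ S, ∀ y ∈ S, x < y → R x y) ∨
    (∃ S ⊆ V, S.card = b + 1 ∧ ∀ x ∈ S, ∀ y ∈ S, x < y → ¬ R x y) := by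
  classical
  intro a
  induction a with
  | zero =>
    intro b V hR hV
    obtain ⟨v, hv⟩ := card_pos.1 (by omega : 0 < V.card)
    refine Or.inl ⟨{v}, singleton_subset_iff.2 hv, by simp, ?_⟩
    intro x hx y hy hxy
    rw [mem_singleton] at hx hy
    omega
  | succ a ih =>
    intro b V hR hV
    set M := V.filter (fun v => ∀ w ∈ V, v < w → ¬ R v w) with hM
    by_cases hMc : b + 1 ≤ M.card
    · obtain ⟨S, hS, hSc⟩ := exists_subset_card_eq hMc
      refine Or.inr ⟨S, hS.trans (filter_subset _ _), hSc, ?_⟩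
      intro x hx y hy hxy
      exact (mem_filter.1 (hS hx)).2 y (mem_filter.1 (hS hy)).1 hxy
    · have hc : (V \ M).card = V.card - M.card :=
        card_sdiff_of_subset (filter_subset _ _)
      have h1 : a * b < (V \ M).card := by
        rw [hc]
        have : (a + 1) * b = a * b + b := by ring
        omega
      rcases ih b (V \ M) (fun x hx y hy z hz => hR x (mem_sdiff.1 hx).1 y (mem_sdiff.1 hy).1 z
        (mem_sdiff.1 hz).1) h1 with h2 | h2
      · obtain ⟨S, hS, hSc, hSR⟩ := h2
        have hne : S.Nonempty := card_pos.1 (by omega)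
        set t := S.max' hne with ht
        have htS : t ∈ S := S.max'_mem hne
        have htV := mem_sdiff.1 (hS htS)
        have htM : ∃ w ∈ V, t < w ∧ R t w := by
          by_contra hcon
          push Not at hcon
          exact htV.2 (mem_filter.2 ⟨htV.1, hcon⟩)
        obtain ⟨w, hwV, htw, hRw⟩ := htM
        have hle : ∀ x ∈ S, x ≤ t := fun x hx => S.le_max' x hx
        have hwS : w ∉ S := fun h => absurd (hle w h) (not_le.2 htw)
        refine Or.inl ⟨insert w S, ?_, ?_, ?_⟩
        · intro x hx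
          rcases mem_insert.1 hx with h | h
          · rw [h]; exact hwV
          · exact (mem_sdiff.1 (hS h)).1
        · rw [card_insert_of_notMem hwS, hSc]
        · intro x hx y hy hxy
          rcases mem_insert.1 hy with h | h
          · rcases mem_insert.1 hx with h' | h'
            · omega
            · rcases Nat.lt_or_eq_of_le (hle x h') with h3 | h3
              · rw [h]
                exact hR x (mem_sdiff.1 (hS h')).1 t htV.1 w hwV h3 htw (hSR x h' t htS h3) hRw
              · rw [h, h3]; exact hRw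
          · rcases mem_insert.1 hx with h' | h'
            · have := hle y h; omega
            · exact hSR x h' y h hxy
      · obtain ⟨S, hS, hSc, hSR⟩ := h2
        exact Or.inr ⟨S, hS.trans sdiff_subset, hSc, hSR⟩

/-- one comparison of pairs -/
theorem base_one {α : Type} [LinearOrder α] (f g : ℕ → α) (n : ℕ) (hn : 1 ≤ n) (V : Finset ℕ)
    (hV : 2 * n ^ 2 ≤ V.card) : ∃ S ⊆ V, S.card = n ∧
      ((∀ x ∈ S, ∀ y ∈ S, x < y → f y < g x) ∨ (∀ x ∈ S, ∀ y ∈ S, x < y → ¬ f y < g x)) := by
  classical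
  obtain ⟨m, rfl⟩ : ∃ m, n = m + 1 := ⟨n - 1, by omega⟩
  have hsplit : (V.filter (fun x => f x < g x)).card + (V.filter (fun x => ¬ f x < g x)).card =
      V.card := card_filter_add_card_filter_not _
  have hmm : m * m < (m + 1) ^ 2 := by nlinarith
  rcases Nat.lt_or_ge (V.filter (fun x => f x < g x)).card ((m + 1) ^ 2) with h | h
  · have h2 : m * m < (V.filter (fun x => ¬ f x < g x)).card := by omega
    rcases chain_antichain (fun x y => f y < g x) m m _ (by
      intro x hx y hy z hz hxy hyz h3 h4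
      have h5 := (mem_filter.1 hy).2
      exact (h4.trans_le (not_lt.1 h5)).trans h3) h2 with h3 | h3
    · obtain ⟨S, hS, hSc, hSR⟩ := h3
      exact ⟨S, hS.trans (filter_subset _ _), hSc, Or.inl hSR⟩
    · obtain ⟨S, hS, hSc, hSR⟩ := h3
      exact ⟨S, hS.trans (filter_subset _ _), hSc, Or.inr hSR⟩
  · have h2 : m * m < (V.filter (fun x => f x < g x)).card := by omega
    rcases chain_antichain (fun x y => ¬ f y < g x) m m _ (by
      intro x hx y hy z hz hxy hyz h3 h4
      have h5 := (mem_filter.1 hy).2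
      rw [not_lt] at h3 h4 ⊢
      exact (h3.trans h5.le).trans h4) h2 with h3 | h3
    · obtain ⟨S, hS, hSc, hSR⟩ := h3
      exact ⟨S, hS.trans (filter_subset _ _), hSc, Or.inr hSR⟩
    · obtain ⟨S, hS, hSc, hSR⟩ := h3
      exact ⟨S, hS.trans (filter_subset _ _), hSc, Or.inl (fun x hx y hy hxy =>
        not_not.1 (hSR x hx y hy hxy))⟩

/-- finitely many comparisons of pairs -/
theorem base_many {κ α : Type} [LinearOrder α] (f g : κ → ℕ → α) (n : ℕ) (hn : 2 ≤ n)
    (K : Finset κ) : ∀ V : Finset ℕ, n ^ 3 ^ K.card ≤ V.card → ∃ S ⊆ V, S.card = n ∧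
      ∀ l ∈ K, ((∀ x ∈ S, ∀ y ∈ S, x < y → f l y < g l x) ∨
        (∀ x ∈ S, ∀ y ∈ S, x < y → ¬ f l y < g l x)) := by
  classical
  induction K using Finset.induction_on with
  | empty =>
    intro V hV
    rw [card_empty, pow_zero, pow_one] at hV
    obtain ⟨S, hS, hSc⟩ := exists_subset_card_eq hV
    exact ⟨S, hS, hSc, by simp⟩
  | insert l K hl ih =>
    intro V hV
    rw [card_insert_of_notMem hl, pow_succ, pow_mul] at hV
    set m := n ^ 3 ^ K.card with hm
    have hm2 : 2 ≤ m := hn.trans (Nat.le_self_pow (by positivity) n)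
    obtain ⟨S1, hS1, hS1c, hS1R⟩ := base_one (f l) (g l) m (by omega) V (by
      refine le_trans ?_ hV
      rw [show m ^ 3 = m * m ^ 2 by ring]
      exact Nat.mul_le_mul_right _ hm2)
    obtain ⟨S, hS, hSc, hSR⟩ := ih S1 hS1c.ge
    refine ⟨S, hS.trans hS1, hSc, ?_⟩
    intro l' hl'
    rcases mem_insert.1 hl' with h | h
    · rw [h]
      rcases hS1R with h1 | h1
      · exact Or.inl (fun x hx y hy hxy => h1 x (hS hx) y (hS hy) hxy)
      · exact Or.inr (fun x hx y hy hxy => h1 x (hS hx) y (hS hy) hxy)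
    · exact hSR l' h

theorem base {κ α : Type} [Fintype κ] [LinearOrder α] (F G : κ → (Fin 1 → ℕ) → α)
    (n : ℕ) (hn : 2 ≤ n) (V : Finset ℕ)
    (hV : n ^ 3 ^ Fintype.card κ ≤ V.card) : ∃ S ⊆ V, S.card = n ∧ Const (s := 0) 0 F G S := by
  classical
  obtain ⟨S, hS, hSc, hSR⟩ := base_many (fun l v => F l (fun _ => v)) (fun l v => G l (fun _ => v))
    n hn univ V (by rwa [card_univ])
  refine ⟨S, hS, hSc, ?_⟩
  intro x y hx hy hxS hyS l i j hi hj
  have hi0 : i = 0 := Fin.ext (by
    rw [Fin.val_zero]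
    omega)
  have hj1 : j = 1 := Fin.ext (by
    have h1 := j.isLt
    have h2 : ((1 : Fin (0 + 2)) : ℕ) = 1 := rfl
    rw [h2]
    omega)
  subst hi0 hj1
  have key : ∀ z : Fin 2 → ℕ, F l ((0 : Fin 2).removeNth z) < G l ((1 : Fin 2).removeNth z) ↔
      F l (fun _ => z 1) < G l (fun _ => z 0) := by
    intro z
    have e1 : (0 : Fin 2).removeNth z = fun _ => z 1 := by
      funext i
      have : i = 0 := Subsingleton.elim _ _
      subst this
      rfl
    have e2 : (1 : Fin 2).removeNth z = fun _ => z 0 := by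
      funext i
      have : i = 0 := Subsingleton.elim _ _
      subst this
      rfl
    rw [e1, e2]
  have hx1 : x 0 < x 1 := hx (by decide)
  have hy1 : y 0 < y 1 := hy (by decide)
  refine (key x).trans (Iff.trans ?_ (key y).symm)
  rcases hSR l (mem_univ l) with h | h
  · exact iff_of_true (h _ (hxS 0) _ (hxS 1) hx1) (h _ (hyS 0) _ (hyS 1) hy1)
  · exact iff_of_false (h _ (hxS 0) _ (hxS 1) hx1) (h _ (hyS 0) _ (hyS 1) hy1)

end Pool.Agent.R734.CC
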