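import Pool.Agent.R734.CC.Upper

/-!
# Comparisons whose types have a cut
-/

set_option autoImplicit false

namespace Pool.Agent.R734.CC

open Finset

open Classical in
/-- A comparison of a type with a cut in normal form. -/
theorem normal {α : Type} [LinearOrder α] {s : ℕ} (c : Comparison α (s + 1)) (a : ℕ) (ha : a ≤ s)
    (hc : c.i = c.j ∨ (c.i < c.j ∧ c.i.val ≤ a ∧ a < c.j.val) ∨
      (c.j < c.i ∧ c.j.val ≤ a ∧ a < c.i.val)) :
    ∃ (F G : (Fin (s + 1) → ℕ) → Lex (α × ℕ)) (i j : Fin (s + 2)), i.val ≤ a ∧ a < j.val ∧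
      ((∀ x : Fin (s + 2) → ℕ, c.Holds x ↔ F (i.removeNth x) < G (j.removeNth x)) ∨
        (∀ x : Fin (s + 2) → ℕ, c.Holds x ↔ ¬ F (i.removeNth x) < G (j.removeNth x))) := by
  rcases hc with hc | hc | hc
  · set p := c.i with hp
    have hholds : ∀ x : Fin (s + 2) → ℕ, c.Holds x ↔ c.f (p.removeNth x) < c.g (p.removeNth x) := by
      intro x
      unfold Comparison.Holds
      rw [← hc]
    rcases Nat.lt_or_ge a p.val with h | h
    · refine ⟨fun _ => toLex (c.f (fun _ => 0), 0),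
        fun B => toLex (c.f (fun _ => 0), if c.f B < c.g B then 1 else 0), 0, p, by simp, h,
        Or.inl ?_⟩
      intro x
      rw [hholds, Prod.Lex.toLex_lt_toLex]
      by_cases h1 : c.f (p.removeNth x) < c.g (p.removeNth x)
      · simp [h1]
      · simp [h1]
    · refine ⟨fun B => toLex (c.f (fun _ => 0), if c.f B < c.g B then 0 else 1),
        fun _ => toLex (c.f (fun _ => 0), 1), p, ⟨a + 1, by omega⟩, h, by simp, Or.inl ?_⟩
      intro x
      rw [hholds, Prod.Lex.toLex_lt_toLex]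
      by_cases h1 : c.f (p.removeNth x) < c.g (p.removeNth x)
      · simp [h1]
      · simp [h1]
  · refine ⟨fun B => toLex (c.f B, 0), fun B => toLex (c.g B, 0), c.i, c.j, hc.2.1, hc.2.2,
      Or.inl ?_⟩
    intro x
    rw [Prod.Lex.toLex_lt_toLex]
    unfold Comparison.Holds
    simp
  · refine ⟨fun B => toLex (c.g B, 0), fun B => toLex (c.f B, 1), c.j, c.i, hc.2.1, hc.2.2,
      Or.inr ?_⟩
    intro x
    rw [Prod.Lex.toLex_lt_toLex]
    unfold Comparison.Holds
    simp only [zero_lt_one, and_true]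
    rw [← le_iff_lt_or_eq, not_le]

theorem upper_same {s : ℕ} (Γ : SimpleGraph (Fin (s + 2))) (hΓ : HasCut Γ) (k : ℕ) :
    ∃ C : ℕ, 1 ≤ C ∧ ∀ n : ℕ, 2 ≤ n → ∀ V : Finset ℕ, tow s (n ^ C) ≤ V.card →
      ∀ (α : Type) [LinearOrder α] (c : Fin k → Comparison α (s + 1)), (∀ l, (c l).OfType Γ) →
        ∃ S ⊆ V, S.card = n ∧ Same c S := by
  classical
  obtain ⟨a, ha, hcut⟩ : ∃ a ≤ s, ∀ i j : Fin (s + 2), Γ.Adj i j → i < j →
      i.val ≤ a ∧ a < j.val := by
    obtain ⟨a, hcut⟩ := hΓ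
    rcases Nat.lt_or_ge s a with h | h
    · refine ⟨s, le_rfl, fun i j h1 h2 => ?_⟩
      have h3 := (hcut i j h1 h2).2
      have h4 := j.isLt
      omega
    · exact ⟨a, h, hcut⟩
  obtain ⟨C, hC1, hC⟩ := upper s a ha k
  refine ⟨C, hC1, ?_⟩
  intro n hn V hV α _ c hc
  have hnorm := fun l => normal (c l) a ha (by
    rcases hc l with h | h
    · exact Or.inl h
    · rcases lt_trichotomy (c l).i (c l).j with h1 | h1 | h1
      · exact Or.inr (Or.inl ⟨h1, hcut _ _ h h1⟩)
      · exact Or.inl h1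
      · exact Or.inr (Or.inr ⟨h1, hcut _ _ h.symm h1⟩))
  choose F G i j hi hj hFG using hnorm
  obtain ⟨S, hS, hSc, hSh⟩ := hC (Fin k) (Fintype.card_fin k) (Lex (α × ℕ)) F G n hn V hV
  refine ⟨S, hS, hSc, ?_⟩
  intro x y hx hy hxS hyS l
  have h1 := hSh x y hx hy hxS hyS l (i l) (j l) (hi l) (hj l)
  rcases hFG l with h | h
  · rw [h, h, h1]
  · rw [h, h, h1]

theorem homogeneous_of_same {α Λ κ : Type} [LinearOrder α] {m : ℕ} (c : κ → Comparison α m)
    (N : ℕ) (χ : Finset ℕ → Λ) (hχ : DeterminedBy c N χ) (S : Finset ℕ) (hS : S ⊆ range N)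
    (h : Same c S) : Homogeneous (m + 1) χ S := by
  classical
  intro A hA B hB hAc hBc
  have key : ∀ A : Finset ℕ, ∀ hAc : A.card = m + 1,
      univ.image (fun i => A.orderEmbOfFin hAc i) = A := by
    intro A hAc
    ext v
    simp only [mem_image, mem_univ, true_and]
    constructor
    · rintro ⟨i, rfl⟩
      exact A.orderEmbOfFin_mem hAc i
    · intro hv
      have h1 : v ∈ Set.range (A.orderEmbOfFin hAc) := by
        rw [A.range_orderEmbOfFin hAc]
        exact hv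
      exact h1
  have hx := (A.orderEmbOfFin hAc).strictMono
  have hy := (B.orderEmbOfFin hBc).strictMono
  have hxS : ∀ i, A.orderEmbOfFin hAc i ∈ S := fun i => hA (A.orderEmbOfFin_mem hAc i)
  have hyS : ∀ i, B.orderEmbOfFin hBc i ∈ S := fun i => hB (B.orderEmbOfFin_mem hBc i)
  have h1 := hχ _ _ hx hy (fun i => mem_range.1 (hS (hxS i))) (fun i => mem_range.1 (hS (hyS i)))
    (h _ _ hx hy hxS hyS)
  rw [key A hAc, key B hBc] at h1
  exact h1

end Pool.Agent.R734.CC
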