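import Mathlib

/-!
# Comparison colourings

The colour of an `(m + 1)`-subset `x 0 < x 1 < … < x m` of `ℕ` is determined by the results of a
bounded number of comparisons. Every comparison compares the value of a function of all vertices
but `x i` with the value of a function of all vertices but `x j`.
-/

set_option autoImplicit false

namespace Pool.Agent.R734.CC

/-- The iterated exponential `2 ^ (2 ^ (… ^ x))` with `k` twos. -/
def tow : ℕ → ℕ → ℕ
  | 0, x => x
  | k + 1, x => 2 ^ tow k x

/-- A comparison: two positions `i` and `j` and two arbitrary functions `f` and `g` of tuples of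
`m` vertices. -/
structure Comparison (α : Type) (m : ℕ) where
  /-- the position of the vertex on which the left side does not depend -/
  i : Fin (m + 1)
  /-- the position of the vertex on which the right side does not depend -/
  j : Fin (m + 1)
  /-- the left side -/
  f : (Fin m → ℕ) → α
  /-- the right side -/
  g : (Fin m → ℕ) → α

variable {α : Type} {m : ℕ}

/-- The comparison holds for the vertices `x 0, …, x m`: the value of `f` at the tuple `x` without
`x i` is smaller than the value of `g` at the tuple `x` without `x j`. -/
def Comparison.Holds [LT α] (c : Comparison α m) (x : Fin (m + 1) → ℕ) : Prop :=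
  c.f (c.i.removeNth x) < c.g (c.j.removeNth x)

/-- The two positions agree (the comparison is a property of the other `m` vertices) or they form
an edge of the graph `Γ`. -/
def Comparison.OfType (c : Comparison α m) (Γ : SimpleGraph (Fin (m + 1))) : Prop :=
  c.i = c.j ∨ Γ.Adj c.i c.j

/-- There is a cut `a`: all edges of `Γ` join a position `≤ a` to a position `> a`. -/
def HasCut (Γ : SimpleGraph (Fin (m + 1))) : Prop :=
  ∃ a : ℕ, ∀ i j : Fin (m + 1), Γ.Adj i j → i < j → i.val ≤ a ∧ a < j.val

/-- The colour `χ A` of an `(m + 1)`-subset `A` of `{0, …, N - 1}` is determined by the results of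
the comparisons `c l` for the elements of `A` in increasing order. -/
def DeterminedBy [LT α] {κ Λ : Type} (c : κ → Comparison α m) (N : ℕ) (χ : Finset ℕ → Λ) : Prop :=
  ∀ x y : Fin (m + 1) → ℕ, StrictMono x → StrictMono y → (∀ i, x i < N) → (∀ i, y i < N) →
    (∀ l, (c l).Holds x ↔ (c l).Holds y) → χ (Finset.univ.image x) = χ (Finset.univ.image y)

/-- All `k`-subsets of `S` have the same colour. -/
def Homogeneous {Λ : Type} (k : ℕ) (χ : Finset ℕ → Λ) (S : Finset ℕ) : Prop :=
  ∀ A ⊆ S, ∀ B ⊆ S, A.card = k → B.card = k → χ A = χ B

/-- The comparisons have the same results for all increasing tuples of elements of `S`. -/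
def Same [LT α] {κ : Type} (c : κ → Comparison α m) (S : Finset ℕ) : Prop :=
  ∀ x y : Fin (m + 1) → ℕ, StrictMono x → StrictMono y → (∀ i, x i ∈ S) → (∀ i, y i ∈ S) →
    ∀ l, (c l).Holds x ↔ (c l).Holds y

end Pool.Agent.R734.CC
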