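import Mathlib

/-!
# End-homogeneous sets
-/

set_option autoImplicit false

namespace Pool.Agent.R734.CC

open Finset

theorem end_hom_aux {ι τ : Type} [Fintype ι] [Nonempty ι] [Fintype τ] (c : (ι → ℕ) → ℕ → τ)
    (M : ℕ) (V : Finset ℕ) (E : ℕ) (hE : E = 2 * Fintype.card τ ^ (M ^ Fintype.card ι))
    (hV : E ^ M ≤ V.card) : ∀ t ≤ M, ∃ W I : Finset ℕ, W ⊆ V ∧ I ⊆ V ∧ W.card = t ∧
      E ^ (M - t) ≤ I.card ∧ (∀ w ∈ W, ∀ v ∈ I, w < v) ∧
      (∀ a : ι → ℕ, (∀ i, a i ∈ W) → ∀ v ∈ I, ∀ v' ∈ I, c a v = c a v') ∧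
      (∀ a : ι → ℕ, (∀ i, a i ∈ W) → ∀ v ∈ W, (∀ i, a i < v) → ∀ v' ∈ I, c a v = c a v') := by
  classical
  obtain ⟨i0⟩ := ‹Nonempty ι›
  have hq : 1 ≤ Fintype.card τ := Fintype.card_pos_iff.2 ⟨c (fun _ => 0) 0⟩
  intro t
  induction t with
  | zero =>
    intro _
    refine ⟨∅, V, empty_subset _, Subset.rfl, card_empty, by simpa using hV, by simp, ?_, by simp⟩
    intro a ha
    exact absurd (ha i0) (notMem_empty _)
  | succ t ih =>
    intro ht
    obtain ⟨W, I, hWV, hIV, hWc, hIc, hWI, h1, h2⟩ := ih (by omega)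
    set Q := Fintype.card τ ^ (M ^ Fintype.card ι) with hQ
    have hQ1 : 1 ≤ Q := Nat.one_le_pow _ _ hq
    set X := E ^ (M - (t + 1)) with hX
    have hX1 : 1 ≤ X := Nat.one_le_pow _ _ (by omega)
    have hIc' : 2 * Q * X ≤ I.card := by
      rw [← hE, hX, ← pow_succ', show M - (t + 1) + 1 = M - t by omega]
      exact hIc
    have hQX : 1 ≤ Q * X := Nat.mul_pos hQ1 hX1
    have hIne : I.Nonempty := card_pos.1 (by nlinarith)
    set u := I.min' hIne with hu
    have huI : u ∈ I := I.min'_mem hIne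
    have huW : u ∉ W := fun h => absurd (hWI u h u huI) (lt_irrefl _)
    set I1 := I.erase u with hI1
    have hI1c : Q * X ≤ I1.card := by
      rw [hI1, card_erase_of_mem huI]
      have : 2 * Q * X = Q * X + Q * X := by ring
      omega
    have hI1lt : ∀ v ∈ I1, u < v := by
      intro v hv
      have h := mem_erase.1 hv
      exact lt_of_le_of_ne (I.min'_le v h.2) (fun e => h.1 e.symm)
    set W1 := insert u W with hW1
    have hW1c : W1.card = t + 1 := by rw [hW1, card_insert_of_notMem huW, hWc]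
    let Φ : ℕ → ((ι → {w // w ∈ W1}) → τ) := fun v a => c (fun i => (a i : ℕ)) v
    have hcard : Fintype.card ((ι → {w // w ∈ W1}) → τ) ≤ Q := by
      rw [Fintype.card_fun, Fintype.card_fun, Fintype.card_coe, hW1c, hQ]
      exact Nat.pow_le_pow_right hq (Nat.pow_le_pow_left ht _)
    obtain ⟨y, -, hy⟩ := exists_le_card_fiber_of_mul_le_card_of_maps_to (s := I1)
      (t := (univ : Finset ((ι → {w // w ∈ W1}) → τ))) (f := Φ) (n := X) (fun _ _ => mem_univ _)
      ⟨Φ u, mem_univ _⟩ (by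
        rw [card_univ]
        exact (Nat.mul_le_mul_right _ hcard).trans hI1c)
    refine ⟨W1, I1.filter (fun v => Φ v = y), ?_, ?_, hW1c, hy, ?_, ?_, ?_⟩
    · intro w hw
      rcases mem_insert.1 hw with h | h
      · rw [h]; exact hIV huI
      · exact hWV h
    · exact ((filter_subset _ _).trans (erase_subset _ _)).trans hIV
    · intro w hw v hv
      have hv1 := (mem_filter.1 hv).1
      rcases mem_insert.1 hw with h | h
      · rw [h]; exact hI1lt v hv1
      · exact hWI w h v (mem_of_mem_erase hv1)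
    · intro a ha v hv v' hv'
      have e1 := congrFun (mem_filter.1 hv).2 (fun i => ⟨a i, ha i⟩)
      have e2 := congrFun (mem_filter.1 hv').2 (fun i => ⟨a i, ha i⟩)
      exact e1.trans e2.symm
    · intro a ha v hv hav v' hv'
      have hv'I : v' ∈ I := mem_of_mem_erase (mem_filter.1 hv').1
      have haW : ∀ i, a i ∈ W := by
        intro i
        rcases mem_insert.1 (ha i) with h | h
        · exfalso
          have h3 := hav i
          rw [h] at h3
          rcases mem_insert.1 hv with h4 | h4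
          · rw [h4] at h3; exact lt_irrefl _ h3
          · exact absurd (hWI v h4 u huI) (not_lt.2 h3.le)
        · exact h
      rcases mem_insert.1 hv with h | h
      · rw [h]
        exact h1 a haW u huI v' hv'I
      · exact h2 a haW v h hav v' hv'I

/-- **End-homogeneous sets.** -/
theorem end_hom {ι τ : Type} [Fintype ι] [Nonempty ι] [Fintype τ] (c : (ι → ℕ) → ℕ → τ)
    (M : ℕ) (V : Finset ℕ)
    (hV : (2 * Fintype.card τ ^ (M ^ Fintype.card ι)) ^ M ≤ V.card) :
    ∃ W ⊆ V, W.card = M ∧ ∃ u ∈ V, (∀ w ∈ W, w < u) ∧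
      ∀ a : ι → ℕ, (∀ i, a i ∈ W) → ∀ v ∈ W, (∀ i, a i < v) → c a v = c a u := by
  obtain ⟨W, I, hWV, hIV, hWc, hIc, hWI, h1, h2⟩ := end_hom_aux c M V _ rfl hV M le_rfl
  rw [Nat.sub_self, pow_zero] at hIc
  obtain ⟨u, hu⟩ := card_pos.1 hIc
  exact ⟨W, hWV, hWc, u, hIV hu, fun w hw => hWI w hw u hu,
    fun a ha v hv hav => h2 a ha v hv hav u hu⟩

end Pool.Agent.R734.CC
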