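import Pool.Agent.R734.CC.Lower

/-!
# Colourings of finite sets
-/

set_option autoImplicit false

namespace Pool.Agent.R734.CC

open Finset

open Classical in
/-- the colouring by the vector of the results of the comparisons -/
noncomputable def vec {α : Type} [LinearOrder α] {m k : ℕ} (c : Fin k → Comparison α m)
    (A : Finset ℕ) : Fin k → Bool :=
  fun l => if h : A.card = m + 1 then decide ((c l).Holds (fun i => A.orderEmbOfFin h i)) else false

open Classical in
theorem vec_image {α : Type} [LinearOrder α] {m k : ℕ} (c : Fin k → Comparison α m)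
    (x : Fin (m + 1) → ℕ) (hx : StrictMono x) :
    vec c (univ.image x) = fun l => decide ((c l).Holds x) := by
  have hcard : (univ.image x).card = m + 1 := by
    rw [card_image_of_injective _ hx.injective, card_univ, Fintype.card_fin]
  have h1 : x = (univ.image x).orderEmbOfFin hcard :=
    orderEmbOfFin_unique hcard (fun i => mem_image_of_mem _ (mem_univ _)) hx
  funext l
  unfold vec
  rw [dif_pos hcard]
  congr 2
  exact h1.symm

theorem determined_vec {α : Type} [LinearOrder α] {m k : ℕ} (c : Fin k → Comparison α m) (N : ℕ) :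
    DeterminedBy c N (vec c) := by
  classical
  intro x y hx hy _ _ h
  rw [vec_image c x hx, vec_image c y hy]
  funext l
  simp only [h l]

theorem same_of_homogeneous {α : Type} [LinearOrder α] {m k : ℕ} (c : Fin k → Comparison α m)
    (S : Finset ℕ) (h : Homogeneous (m + 1) (vec c) S) : Same c S := by
  classical
  intro x y hx hy hxS hyS l
  have hc : ∀ z : Fin (m + 1) → ℕ, StrictMono z → (univ.image z).card = m + 1 := fun z hz => by
    rw [card_image_of_injective _ hz.injective, card_univ, Fintype.card_fin]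
  have hs : ∀ z : Fin (m + 1) → ℕ, (∀ i, z i ∈ S) → univ.image z ⊆ S := by
    intro z hz v hv
    obtain ⟨i, -, rfl⟩ := mem_image.1 hv
    exact hz i
  have h1 := h _ (hs x hxS) _ (hs y hyS) (hc x hx) (hc y hy)
  rw [vec_image c x hx, vec_image c y hy] at h1
  have h2 := congrFun h1 l
  simp only [decide_eq_decide] at h2
  exact h2

/-- real values -/
def toReal {m : ℕ} (c : Comparison ℕ m) : Comparison ℝ m :=
  ⟨c.i, c.j, fun B => (c.f B : ℝ), fun B => (c.g B : ℝ)⟩

theorem toReal_holds {m : ℕ} (c : Comparison ℕ m) (x : Fin (m + 1) → ℕ) :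
    (toReal c).Holds x ↔ c.Holds x := by
  simp only [Comparison.Holds, toReal, Nat.cast_lt]

/-- from comparisons of natural numbers indexed by a finite type to the final form -/
theorem finish {κ : Type} [Fintype κ] {m : ℕ} (Γ : SimpleGraph (Fin (m + 1)))
    (c : κ → Comparison ℕ m) (hc : ∀ l, (c l).OfType Γ) (N n : ℕ)
    (h : NoHom (fun l x => (c l).Holds x) N n) :
    ∃ c : Fin (Fintype.card κ) → Comparison ℝ m, (∀ l, (c l).OfType Γ) ∧
      ∃ χ : Finset ℕ → (Fin (Fintype.card κ) → Bool), DeterminedBy c N χ ∧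
        ∀ S ⊆ range N, S.card = n → ¬ Homogeneous (m + 1) χ S := by
  let e := Fintype.equivFin κ
  refine ⟨fun l => toReal (c (e.symm l)), fun l => hc _, vec _, determined_vec _ N, ?_⟩
  intro S hS hSc hh
  have h1 := same_of_homogeneous _ S hh
  refine h S hS hSc ?_
  intro z z' hz hz' hzS hzS' l
  have h2 := h1 z z' hz hz' hzS hzS' (e l)
  simp only [toReal_holds, Equiv.symm_apply_apply] at h2
  exact h2

/-- a graph without a cut -/
theorem exists_edges {m : ℕ} (Γ : SimpleGraph (Fin (m + 1))) (hΓ : ¬ HasCut Γ) :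
    ∃ i a j k : Fin (m + 1), i < a ∧ a ≤ j ∧ j < k ∧ Γ.Adj i a ∧ Γ.Adj j k := by
  classical
  have hex : ∃ v : ℕ, ∃ i a : Fin (m + 1), a.val = v ∧ i < a ∧ Γ.Adj i a := by
    by_contra hcon
    push Not at hcon
    exact hΓ ⟨0, fun i j h1 h2 => absurd h1 (hcon j.val i j rfl h2)⟩
  obtain ⟨i, a, hav, hia, hadj⟩ := Nat.find_spec hex
  have hmin : ∀ j k : Fin (m + 1), j < k → Γ.Adj j k → a.val ≤ k.val := by
    intro j k hjk hadj'
    rw [hav]
    exact Nat.find_min' hex ⟨j, k, rfl, hjk, hadj'⟩
  by_contra hcon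
  push Not at hcon
  apply hΓ
  refine ⟨a.val - 1, fun j k h1 h2 => ?_⟩
  have h3 := hmin j k h2 h1
  have h4 : i.val < a.val := hia
  have h5 : ¬ a ≤ j := fun h => hcon i a j k hia h h2 hadj h1
  rw [Fin.le_def] at h5
  omega

/-- adding a last vertex on which nothing depends -/
theorem add_last {κ : Type} [Fintype κ] {m : ℕ} (φ : κ → (Fin (m + 1) → ℕ) → Prop) (N n : ℕ)
    (h : NoHom φ N n) : ∃ c : κ → Comparison ℕ (m + 1), (∀ l, (c l).OfType ⊥) ∧
      NoHom (fun l x => (c l).Holds x) N (n + 1) := by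
  classical
  refine ⟨fun l => ⟨Fin.last _, Fin.last _, fun w => if φ l w then 0 else 1, fun _ => 1⟩,
    fun l => Or.inl rfl, ?_⟩
  intro S hS hSc hh
  have hne : S.Nonempty := card_pos.1 (by omega)
  set u := S.max' hne with hu
  have huS : u ∈ S := S.max'_mem hne
  refine h (S.erase u) ((erase_subset _ _).trans hS) (by rw [card_erase_of_mem huS]; omega) ?_
  intro z z' hz hz' hzS hzS' l
  have key : ∀ z : Fin (m + 1) → ℕ, StrictMono z → (∀ i, z i ∈ S.erase u) →
      StrictMono (Fin.snoc (α := fun _ => ℕ) z u) ∧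
      (∀ i, Fin.snoc (α := fun _ => ℕ) z u i ∈ S) ∧
      (Fin.last (m + 1)).removeNth (Fin.snoc (α := fun _ => ℕ) z u) = z := by
    intro z hz hzS
    refine ⟨?_, ?_, ?_⟩
    · rw [Fin.strictMono_iff_lt_succ]
      intro i
      refine Fin.lastCases ?_ (fun i => ?_) i
      · rw [Fin.snoc_castSucc, Fin.succ_last, Fin.snoc_last]
        have h1 := mem_erase.1 (hzS (Fin.last m))
        exact lt_of_le_of_ne (S.le_max' _ h1.2) h1.1
      · rw [Fin.snoc_castSucc, Fin.succ_castSucc, Fin.snoc_castSucc]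
        exact hz (Fin.castSucc_lt_succ)
    · intro i
      refine Fin.lastCases ?_ (fun i => ?_) i
      · rw [Fin.snoc_last]; exact huS
      · rw [Fin.snoc_castSucc]; exact mem_of_mem_erase (hzS i)
    · funext i
      simp [Fin.removeNth_apply]
  obtain ⟨a1, a2, a3⟩ := key z hz hzS
  obtain ⟨b1, b2, b3⟩ := key z' hz' hzS'
  have h1 := hh _ _ a1 b1 a2 b2 l
  simp only [Comparison.Holds, a3, b3] at h1
  have e : ∀ p : Prop, ((if p then 0 else 1) < 1) ↔ p := by
    intro p
    by_cases hp : p <;> simp [hp]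
  rw [e, e] at h1
  exact h1

end Pool.Agent.R734.CC
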