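import Pool.Agent.R734.CC.Stretch
import Pool.Agent.R734.CC.Cut

/-!
# The lower bound for comparison colourings without a cut
-/

set_option autoImplicit false

namespace Pool.Agent.R734.CC

open Finset

/-- the allowed types: `{i, a}` and `{j, k}` (and properties of all vertices but one) -/
def Ok (i a j k : ℕ) {m : ℕ} (c : Comparison ℕ m) : Prop :=
  c.i = c.j ∨ (c.i.val = i ∧ c.j.val = a) ∨ (c.i.val = a ∧ c.j.val = i) ∨
    (c.i.val = j ∧ c.j.val = k) ∨ (c.i.val = k ∧ c.j.val = j)

open Pool.Agent.TH138.NF in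
/-- lifting a comparison to more vertices, increasing digits -/
def liftU {m : ℕ} (p : Fin (m + 2) → Fin (m + 3)) (c : Comparison ℕ (m + 1)) :
    Comparison ℕ (m + 2) :=
  ⟨p c.i, p c.j, fun B => c.f (D B), fun B => c.g (D B)⟩

open Pool.Agent.TH138.NF in
/-- lifting a comparison to more vertices, decreasing digits -/
def liftD {m : ℕ} (p : Fin (m + 2) → Fin (m + 3)) (c : Comparison ℕ (m + 1)) :
    Comparison ℕ (m + 2) :=
  ⟨p c.i, p c.j, fun B => c.f (fun i => D B i.rev), fun B => c.g (fun i => D B i.rev)⟩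

/-- positions, increasing digits -/
def posU (z : Bool) {m : ℕ} (p : Fin (m + 2)) : Fin (m + 3) :=
  if z = true ∧ p = 0 then 0 else p.succ

/-- positions, decreasing digits -/
def posD (z : Bool) {m : ℕ} (p : Fin (m + 2)) : Fin (m + 3) :=
  if z = true ∧ p = 0 then Fin.last _ else p.rev.castSucc

open Pool.Agent.TH138.NF in
theorem posU_spec (z : Bool) {m : ℕ} (p : Fin (m + 2)) (x : Fin (m + 3) → ℕ) (hx : StrictMono x)
    (hD : StrictMono (D x)) : D ((posU z p).removeNth x) = p.removeNth (D x) := by
  unfold posU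
  split_ifs with h
  · rw [h.2]
    funext i
    rw [D_tail]
    simp [Fin.removeNth_apply]
  · exact D_succ x hx hD p

open Pool.Agent.TH138.NF in
theorem posD_spec (z : Bool) {m : ℕ} (p : Fin (m + 2)) (x : Fin (m + 3) → ℕ) (hx : StrictMono x)
    (hD : StrictAnti (D x)) : (fun i : Fin (m + 1) => D ((posD z p).removeNth x) i.rev) =
      p.removeNth (fun i => D x i.rev) := by
  have h1 : D ((posD z p).removeNth x) = p.rev.removeNth (D x) := by
    unfold posD
    split_ifs with h
    · rw [h.2, Fin.rev_zero]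
      funext i
      rw [D_init]
      simp [Fin.removeNth_apply]
    · exact D_castSucc x hx hD p.rev
  rw [h1]
  funext i
  rw [Fin.removeNth_apply, Fin.removeNth_apply, Fin.rev_succAbove]

open Pool.Agent.TH138.NF in
theorem liftU_holds (z : Bool) {m : ℕ} (c : Comparison ℕ (m + 1)) (x : Fin (m + 3) → ℕ)
    (hx : StrictMono x) (hD : StrictMono (D x)) :
    (liftU (posU z) c).Holds x ↔ c.Holds (D x) := by
  simp only [Comparison.Holds, liftU]
  rw [posU_spec z c.i x hx hD, posU_spec z c.j x hx hD]

open Pool.Agent.TH138.NF in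
theorem liftD_holds (z : Bool) {m : ℕ} (c : Comparison ℕ (m + 1)) (x : Fin (m + 3) → ℕ)
    (hx : StrictMono x) (hD : StrictAnti (D x)) :
    (liftD (posD z) c).Holds x ↔ c.Holds (fun i => D x i.rev) := by
  simp only [Comparison.Holds, liftD]
  rw [posD_spec z c.i x hx hD, posD_spec z c.j x hx hD]

open Pool.Agent.TH138.NF in
/-- pairs: the random colouring -/
theorem base_nohom (t : ℕ) : ∃ φ : Unit → (Fin 2 → ℕ) → Prop, NoHom φ (2 ^ t) (4 * t + 4) := by
  classical
  obtain ⟨χ, hχ⟩ := exists_chi t
  refine ⟨fun _ z => χ (z 0) (z 1) = true, ?_⟩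
  intro S hS hc hh
  obtain ⟨y, hyS, hym⟩ := enum S
  rw [hc] at hyS hym
  have hinj : ∀ X : Finset ℕ, (∀ i ∈ X, i < 4 * t + 4) → (X.image y).card = X.card := by
    intro X hX
    apply card_image_of_injOn
    intro a ha b hb hab
    rcases lt_trichotomy a b with h | h | h
    · exact absurd hab (hym a b h (hX b hb)).ne
    · exact h
    · exact absurd hab (hym b a h (hX a ha)).ne'
  have hlt : ∀ i < 4 * t + 4, y i < 2 ^ t := fun i hi => mem_range.1 (hS (hyS i hi))
  have hpair : ∀ i k i' k', i < k → k < 4 * t + 4 → i' < k' → k' < 4 * t + 4 →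
      (χ (y i) (y k) = true ↔ χ (y i') (y k') = true) := by
    intro i k i' k' h1 h2 h3 h4
    have hsm : ∀ i k, i < k → k < 4 * t + 4 → StrictMono ![y i, y k] := by
      intro i k h1 h2
      rw [Fin.strictMono_iff_lt_succ]
      intro l
      fin_cases l
      exact hym i k h1 h2
    have hmem : ∀ i k, i < k → k < 4 * t + 4 → ∀ l, ![y i, y k] l ∈ S := by
      intro i k h1 h2 l
      fin_cases l
      · exact hyS i (by omega)
      · exact hyS k h2
    exact hh ![y i, y k] ![y i', y k'] (hsm i k h1 h2) (hsm i' k' h3 h4) (hmem i k h1 h2)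
      (hmem i' k' h3 h4) ()
  obtain ⟨a, ha, b, hb, hne⟩ := hχ ((range (2 * t + 2)).image y)
    ((Ico (2 * t + 2) (4 * t + 4)).image y)
    (by
      intro a ha
      obtain ⟨i, hi, rfl⟩ := mem_image.1 ha
      exact hlt i (by rw [mem_range] at hi; omega))
    (by
      intro a ha
      obtain ⟨i, hi, rfl⟩ := mem_image.1 ha
      exact hlt i (by rw [mem_Ico] at hi; omega))
    (by rw [hinj _ (fun i hi => by rw [mem_range] at hi; omega), card_range])
    (by rw [hinj _ (fun i hi => by rw [mem_Ico] at hi; omega), Nat.card_Ico]; omega)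
    (χ (y 0) (y 1))
  obtain ⟨i, hi, rfl⟩ := mem_image.1 ha
  obtain ⟨k, hk, rfl⟩ := mem_image.1 hb
  rw [mem_range] at hi
  rw [mem_Ico] at hk
  apply hne
  have h1 := hpair i k 0 1 (by omega) (by omega) (by omega) (by omega)
  exact Bool.eq_iff_iff.2 h1

open Pool.Agent.TH138.NF in
/-- the comparison which decides whether the digits increase, three vertices -/
theorem cmp_base (x : Fin 3 → ℕ) (hx : StrictMono x) :
    (⟨2, 1, fun w => D w 0, fun w => D w 0⟩ : Comparison ℕ 2).Holds x ↔ D x 0 < D x 1 := by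
  simp only [Comparison.Holds, D, Fin.removeNth_apply]
  have h1 : x 0 < x 1 := hx (by decide)
  have h2 : x 1 < x 2 := hx (by decide)
  have h3 := hd_max h1 h2
  change hd (x 0) (x 1) < hd (x 0) (x 2) ↔ hd (x 0) (x 1) < hd (x 1) (x 2)
  rw [h3]
  simp

open Pool.Agent.TH138.NF in
/-- the comparison which decides whether the digits increase, more than three vertices -/
theorem cmp_more {m : ℕ} (x : Fin (m + 4) → ℕ) :
    (⟨Fin.last _, Fin.last _, fun w => D w 0, fun w => D w 1⟩ : Comparison ℕ (m + 3)).Holds x ↔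
      D x 0 < D x 1 := by
  simp only [Comparison.Holds]
  rw [D_init, D_init]
  rfl

/-- **The lower bound.** -/
theorem lower (s : ℕ) : ∀ i a j k : ℕ, i < a → a ≤ j → j < k → k ≤ s + 2 →
    ∃ (κ : Type) (_ : Fintype κ) (B : ℕ), ∀ t : ℕ, ∃ c : κ → Comparison ℕ (s + 2),
      (∀ l, Ok i a j k (c l)) ∧
        NoHom (fun l x => (c l).Holds x) (tow (s + 2) t) (4 * t + B) := by
  classical
  induction s with
  | zero =>
    intro i a j k h1 h2 h3 h4
    obtain rfl : i = 0 := by omega
    obtain rfl : a = 1 := by omega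
    obtain rfl : j = 1 := by omega
    obtain rfl : k = 2 := by omega
    refine ⟨Option (Unit ⊕ Unit), inferInstance, 5, fun t => ?_⟩
    obtain ⟨φ, hφ⟩ := base_nohom t
    obtain ⟨hU, hhU⟩ := read_up (m := 0) (φ ())
    obtain ⟨hD, hhD⟩ := read_down (m := 0) (fun z => φ () (fun i => z i.rev))
    refine ⟨fun l => match l with
      | none => ⟨2, 1, fun w => Pool.Agent.TH138.NF.D w 0, fun w => Pool.Agent.TH138.NF.D w 0⟩
      | some (Sum.inl _) => ⟨0, 1, hU, hU⟩
      | some (Sum.inr _) => ⟨Fin.last 2, (Fin.last 1).castSucc, hD, hD⟩, ?_, ?_⟩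
    · rintro (_ | (_ | _))
      · exact Or.inr (Or.inr (Or.inr (Or.inr ⟨rfl, rfl⟩)))
      · exact Or.inr (Or.inl ⟨rfl, rfl⟩)
      · exact Or.inr (Or.inr (Or.inr (Or.inr ⟨rfl, rfl⟩)))
    · have := step_up (m := 0) (fun l : Option (Unit ⊕ Unit) => match l with
        | none => ⟨2, 1, fun w => Pool.Agent.TH138.NF.D w 0, fun w => Pool.Agent.TH138.NF.D w 0⟩
        | some (Sum.inl _) => ⟨0, 1, hU, hU⟩
        | some (Sum.inr _) => ⟨Fin.last 2, (Fin.last 1).castSucc, hD, hD⟩) φ φ (2 ^ t) (4 * t + 4)
        hφ hφ ⟨none, fun x hx => cmp_base x hx⟩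
        (fun l' => ⟨some (Sum.inl ()), fun x hx hDx => hhU x hx hDx⟩)
        (fun l' => ⟨some (Sum.inr ()), fun x hx hDx => hhD x hx hDx⟩)
      exact this
  | succ s ih =>
    intro i a j k h1 h2 h3 h4
    -- increasing digits
    have hUp : ∃ (κ : Type) (_ : Fintype κ) (B : ℕ), ∀ t : ℕ,
        ∃ (φ : κ → (Fin (s + 3) → ℕ) → Prop) (c : κ → Comparison ℕ (s + 3)),
          (∀ l, Ok i a j k (c l)) ∧ NoHom φ (tow (s + 2) t) (4 * t + B) ∧
          ∀ l, ∀ x : Fin (s + 4) → ℕ, StrictMono x → StrictMono (Pool.Agent.TH138.NF.D x) →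
            ((c l).Holds x ↔ φ l (Pool.Agent.TH138.NF.D x)) := by
      by_cases h01 : i = 0 ∧ a = 1
      · obtain ⟨κ, hκ, B, hB⟩ := ih 0 1 1 2 (by omega) (by omega) (by omega) (by omega)
        refine ⟨κ, hκ, B, fun t => ?_⟩
        obtain ⟨c, hc, hn⟩ := hB t
        choose h hh using fun l => read_up (m := s + 1) (fun x => (c l).Holds x)
        refine ⟨fun l x => (c l).Holds x, fun l => ⟨0, 1, h l, h l⟩, ?_, hn, ?_⟩
        · intro l
          refine Or.inr (Or.inl ⟨?_, ?_⟩)
          · rw [h01.1]; rfl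
          · rw [h01.2]; rfl
        · intro l x hx hDx
          exact hh l x hx hDx
      · obtain ⟨κ, hκ, B, hB⟩ := ih (i - 1) (a - 1) (j - 1) (k - 1) (by omega) (by omega) (by omega)
          (by omega)
        refine ⟨κ, hκ, B, fun t => ?_⟩
        obtain ⟨c, hc, hn⟩ := hB t
        refine ⟨fun l x => (c l).Holds x, fun l => liftU (posU (decide (i = 0))) (c l), ?_, hn, ?_⟩
        · intro l
          have hv : ∀ p : Fin (s + 3), (posU (decide (i = 0)) p).val =
              if i = 0 ∧ p.val = 0 then 0 else p.val + 1 := by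
            intro p
            unfold posU
            have hp : p = 0 ↔ p.val = 0 := by
              rw [Fin.ext_iff]
              rfl
            simp only [decide_eq_true_eq, hp]
            split_ifs <;> rfl
          unfold Ok liftU
          simp only [hv]
          rcases hc l with h | h | h | h | h
          · exact Or.inl (by rw [h])
          · refine Or.inr (Or.inl ⟨?_, ?_⟩)
            · rw [h.1]; split_ifs <;> omega
            · rw [h.2]; split_ifs <;> omega
          · refine Or.inr (Or.inr (Or.inl ⟨?_, ?_⟩))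
            · rw [h.1]; split_ifs <;> omega
            · rw [h.2]; split_ifs <;> omega
          · refine Or.inr (Or.inr (Or.inr (Or.inl ⟨?_, ?_⟩)))
            · rw [h.1]; split_ifs <;> omega
            · rw [h.2]; split_ifs <;> omega
          · refine Or.inr (Or.inr (Or.inr (Or.inr ⟨?_, ?_⟩)))
            · rw [h.1]; split_ifs <;> omega
            · rw [h.2]; split_ifs <;> omega
        · intro l x hx hDx
          exact liftU_holds _ (c l) x hx hDx
    -- decreasing digits
    have hDn : ∃ (κ : Type) (_ : Fintype κ) (B : ℕ), ∀ t : ℕ,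
        ∃ (φ : κ → (Fin (s + 3) → ℕ) → Prop) (c : κ → Comparison ℕ (s + 3)),
          (∀ l, Ok i a j k (c l)) ∧ NoHom φ (tow (s + 2) t) (4 * t + B) ∧
          ∀ l, ∀ x : Fin (s + 4) → ℕ, StrictMono x → StrictAnti (Pool.Agent.TH138.NF.D x) →
            ((c l).Holds x ↔ φ l (fun i => Pool.Agent.TH138.NF.D x i.rev)) := by
      by_cases h01 : j = s + 2 ∧ k = s + 3
      · obtain ⟨κ, hκ, B, hB⟩ := ih 0 1 1 2 (by omega) (by omega) (by omega) (by omega)
        refine ⟨κ, hκ, B, fun t => ?_⟩
        obtain ⟨c, hc, hn⟩ := hB t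
        choose h hh using fun l => read_down (m := s + 1) (fun x => (c l).Holds (fun i => x i.rev))
        refine ⟨fun l x => (c l).Holds x, fun l => ⟨Fin.last _, (Fin.last _).castSucc, h l, h l⟩, ?_,
          hn, ?_⟩
        · intro l
          refine Or.inr (Or.inr (Or.inr (Or.inr ⟨?_, ?_⟩)))
          · rw [h01.2]; rfl
          · rw [h01.1]; rfl
        · intro l x hx hDx
          exact hh l x hx hDx
      · obtain ⟨κ, hκ, B, hB⟩ := ih (s + 2 - min k (s + 2)) (s + 2 - j) (s + 2 - a) (s + 2 - i)
          (by omega) (by omega) (by omega) (by omega)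
        refine ⟨κ, hκ, B, fun t => ?_⟩
        obtain ⟨c, hc, hn⟩ := hB t
        refine ⟨fun l x => (c l).Holds x, fun l => liftD (posD (decide (k = s + 3))) (c l), ?_, hn,
          ?_⟩
        · intro l
          have hv : ∀ p : Fin (s + 3), (posD (decide (k = s + 3)) p).val =
              if k = s + 3 ∧ p.val = 0 then s + 3 else s + 2 - p.val := by
            intro p
            unfold posD
            have hp : p = 0 ↔ p.val = 0 := by
              rw [Fin.ext_iff]
              rfl
            simp only [decide_eq_true_eq, hp]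
            split_ifs
            · rfl
            · rw [Fin.val_castSucc, Fin.val_rev]
              omega
          unfold Ok liftD
          simp only [hv]
          rcases hc l with h | h | h | h | h
          · exact Or.inl (by rw [h])
          · refine Or.inr (Or.inr (Or.inr (Or.inr ⟨?_, ?_⟩)))
            · rw [h.1]; split_ifs <;> omega
            · rw [h.2]; split_ifs <;> omega
          · refine Or.inr (Or.inr (Or.inr (Or.inl ⟨?_, ?_⟩)))
            · rw [h.1]; split_ifs <;> omega
            · rw [h.2]; split_ifs <;> omega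
          · refine Or.inr (Or.inr (Or.inl ⟨?_, ?_⟩))
            · rw [h.1]; split_ifs <;> omega
            · rw [h.2]; split_ifs <;> omega
          · refine Or.inr (Or.inl ⟨?_, ?_⟩)
            · rw [h.1]; split_ifs <;> omega
            · rw [h.2]; split_ifs <;> omega
        · intro l x hx hDx
          exact liftD_holds _ (c l) x hx hDx
    obtain ⟨κU, hκU, BU, hU⟩ := hUp
    obtain ⟨κD, hκD, BD, hD⟩ := hDn
    refine ⟨Option (κU ⊕ κD), inferInstance, max BU BD + (s + 2), fun t => ?_⟩
    obtain ⟨φU, cU, cU1, cU2, cU3⟩ := hU t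
    obtain ⟨φD, cD, cD1, cD2, cD3⟩ := hD t
    refine ⟨fun l => match l with
      | none => ⟨Fin.last _, Fin.last _, fun w => Pool.Agent.TH138.NF.D w 0,
        fun w => Pool.Agent.TH138.NF.D w 1⟩
      | some (Sum.inl l) => cU l
      | some (Sum.inr l) => cD l, ?_, ?_⟩
    · rintro (_ | (l | l))
      · exact Or.inl rfl
      · exact cU1 l
      · exact cD1 l
    · have := step_up (m := s + 1) (fun l : Option (κU ⊕ κD) => match l with
        | none => ⟨Fin.last _, Fin.last _, fun w => Pool.Agent.TH138.NF.D w 0,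
          fun w => Pool.Agent.TH138.NF.D w 1⟩
        | some (Sum.inl l) => cU l
        | some (Sum.inr l) => cD l) φU φD (tow (s + 2) t) (4 * t + max BU BD)
        (cU2.mono (by omega)) (cD2.mono (by omega)) ⟨none, fun x _ => cmp_more x⟩
        (fun l' => ⟨some (Sum.inl l'), fun x hx hDx => cU3 l' x hx hDx⟩)
        (fun l' => ⟨some (Sum.inr l'), fun x hx hDx => cD3 l' x hx hDx⟩)
      intro S hS hSc
      exact this S hS (by omega)

end Pool.Agent.R734.CC
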