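import Pool.Agent.R734.CC.Defs
import Pool.Agent.TH138.NF.Low

/-!
# Reading an arbitrary colour by a comparison
-/

set_option autoImplicit false

namespace Pool.Agent.R734.CC

open Finset Pool.Agent.TH138.NF

/-- the number with the binary digits `p c`, `c < b` -/
def num (b : ℕ) (p : ℕ → Bool) : ℕ := ∑ c ∈ range b, if p c then 2 ^ c else 0

theorem num_lt_pow (b : ℕ) (p : ℕ → Bool) : num b p < 2 ^ b := by
  induction b with
  | zero => simp [num]
  | succ b ih =>
    unfold num at ih ⊢
    rw [sum_range_succ, pow_succ]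
    split_ifs <;> omega

theorem num_lt {b a : ℕ} {p q : ℕ → Bool} (ha : a < b) (h : ∀ c, a < c → c < b → p c = q c)
    (hp : p a = false) (hq : q a = true) : num b p < num b q := by
  induction b with
  | zero => omega
  | succ b ih =>
    have e : ∀ p : ℕ → Bool, num (b + 1) p = num b p + if p b then 2 ^ b else 0 := fun p =>
      sum_range_succ _ _
    rw [e, e]
    rcases Nat.lt_succ_iff_lt_or_eq.1 ha with h1 | h1
    · rw [h b h1 (Nat.lt_succ_self b)]
      have := ih h1 (fun c h2 h3 => h c h2 (by omega))
      omega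
    · subst h1
      rw [hp, hq]
      have := num_lt_pow a p
      simp only [Bool.false_eq_true, if_false, if_true]
      omega

theorem testBit_above {x y c : ℕ} (h : x < y) (hc : hd x y < c) : x.testBit c = y.testBit c := by
  have h1 : x / 2 ^ c = y / 2 ^ c := by
    by_contra h2
    exact absurd ((hd_spec h c).2 h2) (not_le.2 hc)
  rw [Nat.testBit_eq_decide_div_mod_eq, Nat.testBit_eq_decide_div_mod_eq, h1]

theorem testBit_hd {x y : ℕ} (h : x < y) :
    x.testBit (hd x y) = false ∧ y.testBit (hd x y) = true := by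
  set a := hd x y with ha
  have h1 : x / 2 ^ a ≠ y / 2 ^ a := (hd_spec h a).1 le_rfl
  have h2 : x / 2 ^ (a + 1) = y / 2 ^ (a + 1) := by
    by_contra h3
    have := (hd_spec h (a + 1)).2 h3
    omega
  have h3 : x / 2 ^ a ≤ y / 2 ^ a := Nat.div_le_div_right h.le
  rw [pow_succ, ← Nat.div_div_eq_div_mul, ← Nat.div_div_eq_div_mul] at h2
  rw [Nat.testBit_eq_decide_div_mod_eq, Nat.testBit_eq_decide_div_mod_eq]
  constructor
  · rw [decide_eq_false_iff_not]
    omega
  · rw [decide_eq_true_eq]
    omega

open Classical in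
/-- **Reading up.** If the highest differing digits of neighbours increase then an arbitrary
property of them is a comparison of the types `0`, `1`. -/
theorem read_up {m : ℕ} (φ : (Fin (m + 2) → ℕ) → Prop) :
    ∃ h : (Fin (m + 2) → ℕ) → ℕ, ∀ x : Fin (m + 3) → ℕ, StrictMono x → StrictMono (D x) →
      (h ((0 : Fin (m + 3)).removeNth x) < h ((1 : Fin (m + 3)).removeNth x) ↔ φ (D x)) := by
  refine ⟨fun w => num (D w 0) (fun c => xor ((w 0).testBit c)
    (decide (φ (Fin.cons (α := fun _ => ℕ) c (D w))))), ?_⟩
  intro x hx hD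
  set D' : Fin (m + 1) → ℕ := fun i => D x i.succ with hD'
  have e0 : D ((0 : Fin (m + 3)).removeNth x) = D' := by
    funext i
    rw [D_tail]
  have e1 : D ((1 : Fin (m + 3)).removeNth x) = D' := by
    have h1 := D_succ x hx hD (0 : Fin (m + 2))
    rw [Fin.succ_zero_eq_one] at h1
    rw [h1]
    funext i
    simp [hD', Fin.removeNth_apply]
  have w0 : (0 : Fin (m + 3)).removeNth x 0 = x 1 := by simp [Fin.removeNth_apply]
  have w1 : (1 : Fin (m + 3)).removeNth x 0 = x 0 := by simp [Fin.removeNth_apply]
  have hcons : Fin.cons (α := fun _ => ℕ) (D x 0) D' = D x := by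
    funext i
    refine Fin.cases ?_ (fun i => ?_) i
    · simp
    · simp [hD']
  have hx01 : x 0 < x 1 := hx (by simp)
  have ha : D x 0 = hd (x 0) (x 1) := rfl
  have hb : D x 0 < D' 0 := hD (by simp)
  obtain ⟨t0, t1⟩ := testBit_hd hx01
  rw [← ha] at t0 t1
  simp only [e0, e1, w0, w1]
  have habove : ∀ c, D x 0 < c → c < D' 0 → (x 0).testBit c = (x 1).testBit c := fun c h1 _ =>
    testBit_above hx01 h1
  constructor
  · intro h
    by_contra hφ
    refine absurd h (not_lt.2 (num_lt hb ?_ ?_ ?_).le)
    · intro c h1 h2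
      simp only [habove c h1 h2]
    · simp only [hcons, t0, hφ, decide_false, Bool.xor_false]
    · simp only [hcons, t1, hφ, decide_false, Bool.xor_false]
  · intro hφ
    refine num_lt hb ?_ ?_ ?_
    · intro c h1 h2
      simp only [habove c h1 h2]
    · simp only [hcons, t1, hφ, decide_true, Bool.xor_true, Bool.not_true]
    · simp only [hcons, t0, hφ, decide_true, Bool.xor_true, Bool.not_false]

open Classical in
/-- **Reading down.** If the highest differing digits of neighbours decrease then an arbitrary
property of them is a comparison of the types of the last two vertices. -/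
theorem read_down {m : ℕ} (φ : (Fin (m + 2) → ℕ) → Prop) :
    ∃ h : (Fin (m + 2) → ℕ) → ℕ, ∀ x : Fin (m + 3) → ℕ, StrictMono x → StrictAnti (D x) →
      (h ((Fin.last (m + 2)).removeNth x) < h ((Fin.last (m + 1)).castSucc.removeNth x) ↔
        φ (D x)) := by
  refine ⟨fun w => num (D w (Fin.last m)) (fun c => xor ((w (Fin.last (m + 1))).testBit c)
    (!decide (φ (Fin.snoc (α := fun _ => ℕ) (D w) c)))), ?_⟩
  intro x hx hD
  set D' : Fin (m + 1) → ℕ := fun i => D x i.castSucc with hD'
  have e0 : D ((Fin.last (m + 2)).removeNth x) = D' := by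
    funext i
    rw [D_init]
  have e1 : D ((Fin.last (m + 1)).castSucc.removeNth x) = D' := by
    have h1 := D_castSucc x hx hD (Fin.last (m + 1))
    rw [h1]
    funext i
    simp [hD', Fin.removeNth_apply]
  have w0 : (Fin.last (m + 2)).removeNth x (Fin.last (m + 1)) = x (Fin.last (m + 1)).castSucc := by
    simp [Fin.removeNth_apply]
  have w1 : (Fin.last (m + 1)).castSucc.removeNth x (Fin.last (m + 1)) = x (Fin.last (m + 2)) := by
    simp [Fin.removeNth_apply]
  have hcons : Fin.snoc (α := fun _ => ℕ) D' (D x (Fin.last (m + 1))) = D x := by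
    funext i
    refine Fin.lastCases ?_ (fun i => ?_) i
    · simp
    · simp [hD']
  have hx01 : x (Fin.last (m + 1)).castSucc < x (Fin.last (m + 2)) := hx (Fin.castSucc_lt_last _)
  have ha : D x (Fin.last (m + 1)) = hd (x (Fin.last (m + 1)).castSucc) (x (Fin.last (m + 2))) :=
    rfl
  have hb : D x (Fin.last (m + 1)) < D' (Fin.last m) := hD (Fin.castSucc_lt_last _)
  obtain ⟨t0, t1⟩ := testBit_hd hx01
  rw [← ha] at t0 t1
  simp only [e0, e1, w0, w1]
  have habove : ∀ c, D x (Fin.last (m + 1)) < c → c < D' (Fin.last m) →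
      (x (Fin.last (m + 1)).castSucc).testBit c = (x (Fin.last (m + 2))).testBit c :=
    fun c h1 _ => testBit_above hx01 h1
  constructor
  · intro h
    by_contra hφ
    refine absurd h (not_lt.2 (num_lt hb ?_ ?_ ?_).le)
    · intro c h1 h2
      simp only [habove c h1 h2]
    · simp only [hcons, t1, hφ, decide_false, Bool.not_false, Bool.xor_true, Bool.not_true]
    · simp only [hcons, t0, hφ, decide_false, Bool.not_false, Bool.xor_true]
  · intro hφ
    refine num_lt hb ?_ ?_ ?_
    · intro c h1 h2
      simp only [habove c h1 h2]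
    · simp only [hcons, t0, hφ, decide_true, Bool.not_true, Bool.xor_false]
    · simp only [hcons, t1, hφ, decide_true, Bool.not_true, Bool.xor_false]

end Pool.Agent.R734.CC
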