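import Pool.Agent.R734.CC.Base
import Pool.Agent.R734.CC.EndHom

/-!
# One vertex less
-/

set_option autoImplicit false

namespace Pool.Agent.R734.CC

open Finset

/-- a tuple with a new last entry -/
def sn {m : ℕ} (B : Fin m → ℕ) (v : ℕ) : Fin (m + 1) → ℕ := Fin.snoc (α := fun _ => ℕ) B v

theorem removeNth_castSucc {m : ℕ} (y : Fin (m + 2) → ℕ) (p : Fin (m + 1)) :
    p.castSucc.removeNth y = sn (p.removeNth (Fin.init y)) (y (Fin.last (m + 1))) := by
  funext i
  refine Fin.lastCases ?_ (fun i => ?_) i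
  · simp [sn, Fin.removeNth_apply]
  · simp [sn, Fin.removeNth_apply, Fin.init]

section

variable {κ α : Type} [LinearOrder α] {s : ℕ} (F G : κ → (Fin (s + 2) → ℕ) → α)
  (W : Finset ℕ) (u : ℕ)

open Classical in
/-- the tuples below the threshold -/
noncomputable def low (l : κ) (B : Fin (s + 1) → ℕ) : Finset (Fin (s + 1) → ℕ) :=
  (Fintype.piFinset fun _ : Fin (s + 1) => W).filter (fun E =>
    (∀ i, E i < B (Fin.last s)) ∧ ¬ F l (sn B u) < G l (sn E (B (Fin.last s))))

/-- the new functions on the left of the comparisons -/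
noncomputable def F' : κ ⊕ κ → (Fin (s + 1) → ℕ) → WithBot α :=
  Sum.elim (fun l B => (F l (sn B u) : WithBot α))
    (fun l B => (low F G W u l B).sup (fun E => (G l (sn E u) : WithBot α)))

/-- the new functions on the right of the comparisons -/
def G' : κ ⊕ κ → (Fin (s + 1) → ℕ) → WithBot α :=
  Sum.elim (fun l D => (G l (sn D u) : WithBot α)) (fun l E => (G l (sn E u) : WithBot α))

/-- the index set of the entries of the three tuples -/
abbrev Idx (s : ℕ) : Type := Fin (s + 1) ⊕ (Fin (s + 1) ⊕ Fin (s + 2))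

/-- the colours for which an end-homogeneous set is used -/
def col (a : Idx s → ℕ) (v : ℕ) (l : κ) : Prop × (Prop × Prop) :=
  (F l (sn (fun i => a (Sum.inl i)) v) < G l (sn (fun i => a (Sum.inr (Sum.inl i))) v),
    G l (sn (fun i => a (Sum.inl i)) v) ≤ G l (sn (fun i => a (Sum.inr (Sum.inl i))) v),
    F l (sn (fun i => a (Sum.inl i)) v) < G l (fun i => a (Sum.inr (Sum.inr i))))

variable (hW : ∀ a : Idx s → ℕ, (∀ i, a i ∈ W) → ∀ v ∈ W, (∀ i, a i < v) →
  col F G a v = col F G a u)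

include hW

theorem col_iff (B D : Fin (s + 1) → ℕ) (C : Fin (s + 2) → ℕ) (hB : ∀ i, B i ∈ W)
    (hD : ∀ i, D i ∈ W) (hC : ∀ i, C i ∈ W) (v : ℕ) (hv : v ∈ W) (hBv : ∀ i, B i < v)
    (hDv : ∀ i, D i < v) (hCv : ∀ i, C i < v) (l : κ) :
    (F l (sn B v) < G l (sn D v) ↔ F l (sn B u) < G l (sn D u)) ∧
    (G l (sn B v) ≤ G l (sn D v) ↔ G l (sn B u) ≤ G l (sn D u)) ∧
    (F l (sn B v) < G l C ↔ F l (sn B u) < G l C) := by
  have h := hW (Sum.elim B (Sum.elim D C)) (by
    rintro (i | i | i)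
    · exact hB i
    · exact hD i
    · exact hC i) v hv (by
    rintro (i | i | i)
    · exact hBv i
    · exact hDv i
    · exact hCv i)
  have h1 := congrFun h l
  simp only [col, Sum.elim_inl, Sum.elim_inr, Prod.mk.injEq] at h1
  obtain ⟨h2, h3, h4⟩ := h1
  exact ⟨iff_of_eq h2, iff_of_eq h3, iff_of_eq h4⟩

theorem cmp_castSucc (y : Fin (s + 3) → ℕ) (hy : StrictMono y) (hyW : ∀ i, y i ∈ W) (l : κ)
    (i j : Fin (s + 2)) : F l (i.castSucc.removeNth y) < G l (j.castSucc.removeNth y) ↔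
      F' F G W u (Sum.inl l) (i.removeNth (Fin.init y)) <
        G' G u (Sum.inl l) (j.removeNth (Fin.init y)) := by
  have hyl : ∀ i : Fin (s + 2), y i.castSucc < y (Fin.last (s + 2)) := fun i =>
    hy (Fin.castSucc_lt_last i)
  have hyc : ∀ i : Fin (s + 2), y i.castSucc ∈ W := fun i => hyW _
  rw [removeNth_castSucc, removeNth_castSucc]
  rw [((col_iff F G W u hW (i.removeNth (Fin.init y))
    (j.removeNth (Fin.init y)) (Fin.init y) (fun i => hyc _) (fun i => hyc _)
    (fun i => hyc _) (y (Fin.last (s + 2))) (hyW _) (fun i => hyl _) (fun i => hyl _)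
    (fun i => hyl _) l).1)]
  simp only [F', G', Sum.elim_inl, WithBot.coe_lt_coe]

theorem cmp_last (y : Fin (s + 3) → ℕ) (hy : StrictMono y) (hyW : ∀ i, y i ∈ W) (l : κ)
    (i : Fin (s + 2)) (hi : i.val ≤ s) :
    F l (i.castSucc.removeNth y) < G l ((Fin.last (s + 2)).removeNth y) ↔
      F' F G W u (Sum.inr l) (i.removeNth (Fin.init y)) <
        G' G u (Sum.inr l) ((Fin.last (s + 1)).removeNth (Fin.init y)) := by
  classical
  have hyl : ∀ i : Fin (s + 2), y i.castSucc < y (Fin.last (s + 2)) := fun i =>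
    hy (Fin.castSucc_lt_last i)
  have hyc : ∀ i : Fin (s + 2), y i.castSucc ∈ W := fun i => hyW _
  set z : Fin (s + 2) → ℕ := Fin.init y with hz
  have hzm : StrictMono z := fun a b hab => hy (by simpa using hab)
  have hzW : ∀ i, z i ∈ W := fun i => hyW _
  rw [removeNth_castSucc]
  have e1 : (Fin.last (s + 1).succ).removeNth y = z := Fin.removeNth_last y
  have e1' : (Fin.last (s + 2)).removeNth y = z := e1
  rw [e1']
  rw [((col_iff F G W u hW (i.removeNth z)
    (i.removeNth z) z (fun i => hyc _) (fun i => hyc _)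
    (fun i => hyc _) (y (Fin.last (s + 2))) (hyW _) (fun i => hyl _) (fun i => hyl _)
    (fun i => hyl _) l).2.2)]
  have e2 : (Fin.last (s + 1)).removeNth z = Fin.init z := Fin.removeNth_last z
  rw [e2]
  set B := i.removeNth z with hB
  have hBl : B (Fin.last s) = z (Fin.last (s + 1)) := by
    rw [hB, Fin.removeNth_apply, Fin.succAbove_of_le_castSucc]
    · rfl
    · rw [Fin.le_def]
      simpa using hi
  have hzE : z = sn (Fin.init z) (B (Fin.last s)) := by
    rw [hBl]
    exact (Fin.snoc_init_self z).symm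
  have hEW : ∀ i, Fin.init z i ∈ W := fun i => hzW _
  have hElt : ∀ i, Fin.init z i < B (Fin.last s) := by
    intro i
    rw [hBl]
    exact hzm (Fin.castSucc_lt_last i)
  have hmem : ∀ E : Fin (s + 1) → ℕ, E ∈ low F G W u l B ↔ (∀ i, E i ∈ W) ∧
      (∀ i, E i < B (Fin.last s)) ∧ ¬ F l (sn B u) < G l (sn E (B (Fin.last s))) := by
    intro E
    unfold low
    rw [mem_filter, Fintype.mem_piFinset]
  simp only [F', G', Sum.elim_inr]
  have hcmp : ∀ E E' : Fin (s + 1) → ℕ, (∀ i, E i ∈ W) → (∀ i, E' i ∈ W) →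
      (∀ i, E i < B (Fin.last s)) → (∀ i, E' i < B (Fin.last s)) →
      (G l (sn E (B (Fin.last s))) ≤ G l (sn E' (B (Fin.last s))) ↔
        G l (sn E u) ≤ G l (sn E' u)) := by
    intro E E' h1 h2 h3 h4
    exact (col_iff F G W u hW E E' (fun _ => E 0) h1 h2 (fun _ => h1 0) (B (Fin.last s))
      (by rw [hBl]; exact hzW _) h3 h4 (fun _ => h3 0) l).2.1
  constructor
  · intro h
    rw [Finset.sup_lt_iff (WithBot.bot_lt_coe _)]
    intro E hE
    rw [hmem] at hE
    obtain ⟨h1, h2, h3⟩ := hE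
    rw [WithBot.coe_lt_coe, ← not_le]
    intro h4
    rw [← hcmp _ _ hEW h1 hElt h2, ← hzE] at h4
    exact h3 (h.trans_le h4)
  · intro h
    by_contra h1
    have h2 : Fin.init z ∈ low F G W u l B := by
      rw [hmem]
      refine ⟨hEW, hElt, ?_⟩
      rw [← hzE]
      exact h1
    have h3 := le_sup (f := fun E => (G l (sn E u) : WithBot α)) h2
    exact absurd (h3.trans_lt h) (lt_irrefl _)

theorem const_step (a : ℕ) (ha : a ≤ s) (S : Finset ℕ) (hS : S ⊆ W)
    (h : Const a (F' F G W u) (G' G u) S) : Const a F G S := by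
  intro x y hx hy hxS hyS l i j hi hj
  have hxi : StrictMono (Fin.init x : Fin (s + 2) → ℕ) := fun a b hab => hx (by simpa using hab)
  have hyi : StrictMono (Fin.init y : Fin (s + 2) → ℕ) := fun a b hab => hy (by simpa using hab)
  obtain ⟨i', hi'⟩ : ∃ i' : Fin (s + 2), i = i'.castSucc :=
    ⟨⟨i.val, by omega⟩, Fin.ext rfl⟩
  have hi'a : i'.val ≤ a := by
    rw [hi'] at hi
    simpa using hi
  subst hi'
  revert hj
  refine Fin.lastCases ?_ (fun j => ?_) j
  · intro _
    rw [cmp_last F G W u hW x hx (fun i => hS (hxS i)) l i' (by omega),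
      cmp_last F G W u hW y hy (fun i => hS (hyS i)) l i' (by omega)]
    exact h _ _ hxi hyi (fun i => hxS _) (fun i => hyS _) _ _ _ hi'a (by
      rw [Fin.val_last]
      omega)
  · intro hj
    rw [cmp_castSucc F G W u hW x hx (fun i => hS (hxS i)) l,
      cmp_castSucc F G W u hW y hy (fun i => hS (hyS i)) l]
    exact h _ _ hxi hyi (fun i => hxS _) (fun i => hyS _) _ _ _ hi'a (by simpa using hj)

end

theorem card_col {κ : Type} [Fintype κ] [DecidableEq κ] :
    Fintype.card (κ → Prop × (Prop × Prop)) = 2 ^ (Fintype.card κ * 3) := by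
  rw [Fintype.card_fun, Fintype.card_prod, Fintype.card_prod,
    Fintype.card_prop, mul_comm (Fintype.card κ), pow_mul]
  norm_num

/-- **One vertex less.** -/
theorem step {κ α : Type} [Fintype κ] [LinearOrder α] {s : ℕ} (a : ℕ) (ha : a ≤ s)
    (F G : κ → (Fin (s + 2) → ℕ) → α) (M : ℕ) (V : Finset ℕ)
    (hV : (2 * (2 ^ (Fintype.card κ * 3)) ^ (M ^ (3 * s + 4))) ^ M ≤ V.card) :
    ∃ W ⊆ V, W.card = M ∧ ∃ F' G' : κ ⊕ κ → (Fin (s + 1) → ℕ) → WithBot α,
      ∀ S ⊆ W, Const a F' G' S → Const a F G S := by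
  classical
  have hc : Fintype.card (Idx s) = 3 * s + 4 := by
    simp only [Idx, Fintype.card_sum, Fintype.card_fin]
    ring
  obtain ⟨W, hWV, hWc, u, huV, huW, hW⟩ := end_hom (ι := Idx s) (col F G) M V (by
    rw [card_col, hc]
    exact hV)
  exact ⟨W, hWV, hWc, F' F G W u, G' G u, fun S hS h => const_step F G W u hW a ha S hS h⟩

end Pool.Agent.R734.CC
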