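import Pool.Agent.R734.CC.Read

/-!
# Monotone stretches of highest differing digits
-/

set_option autoImplicit false

namespace Pool.Agent.R734.CC

open Finset Pool.Agent.TH138.NF

/-- The properties `φ l` do not take constant values on the increasing tuples of elements of a
set of `n` numbers smaller than `M`. -/
def NoHom {κ : Type} {m : ℕ} (φ : κ → (Fin m → ℕ) → Prop) (M n : ℕ) : Prop :=
  ∀ S ⊆ range M, S.card = n → ¬ ∀ z z' : Fin m → ℕ, StrictMono z → StrictMono z' →
    (∀ i, z i ∈ S) → (∀ i, z' i ∈ S) → ∀ l, φ l z ↔ φ l z'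

theorem NoHom.mono {κ : Type} {m : ℕ} {φ : κ → (Fin m → ℕ) → Prop} {M n n' : ℕ}
    (h : NoHom φ M n) (hn : n ≤ n') : NoHom φ M n' := by
  intro S hS hc hh
  obtain ⟨T, hT, hTc⟩ := exists_subset_card_eq (s := S) (n := n) (by omega)
  exact h T (hT.trans hS) hTc (fun z z' hz hz' hzT hzT' l =>
    hh z z' hz hz' (fun i => hT (hzT i)) (fun i => hT (hzT' i)) l)

theorem stretch_inc {m : ℕ} (y : ℕ → ℕ) (K : ℕ) (hy : ∀ i, i < K → y i < y (i + 1))
    (he : ∀ i, i + 1 < K → hd (y i) (y (i + 1)) < hd (y (i + 1)) (y (i + 2))) :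
    ((range K).image (fun i => hd (y i) (y (i + 1)))).card = K ∧
    ∀ z : Fin (m + 1) → ℕ, StrictMono z →
      (∀ l, z l ∈ (range K).image (fun i => hd (y i) (y (i + 1)))) →
      ∃ x : Fin (m + 2) → ℕ, StrictMono x ∧ (∀ l, ∃ i ≤ K, x l = y i) ∧ D x = z := by
  classical
  have hm : ∀ i k, i < k → k < K → hd (y i) (y (i + 1)) < hd (y k) (y (k + 1)) :=
    e_mono (fun i => hd (y i) (y (i + 1))) K he
  refine ⟨?_, ?_⟩
  · rw [card_image_of_injOn, card_range]
    intro i hi k hk hik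
    rw [coe_range, Set.mem_Iio] at hi hk
    simp only at hik
    rcases lt_trichotomy i k with h | h | h
    · exact absurd hik (hm i k h hk).ne
    · exact h
    · exact absurd hik (hm k i h hi).ne'
  · intro z hz hzE
    have hch : ∀ l, ∃ i < K, hd (y i) (y (i + 1)) = z l := fun l => by
      simpa using mem_image.1 (hzE l)
    choose idx hidx hz' using hch
    have him : StrictMono idx := by
      intro a a' haa'
      by_contra hle
      push Not at hle
      have h3 := hz haa'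
      rw [← hz' a, ← hz' a'] at h3
      rcases Nat.lt_or_eq_of_le hle with h | h
      · exact absurd (hm _ _ h (hidx a)) (not_lt.2 h3.le)
      · rw [h] at h3; exact lt_irrefl _ h3
    obtain ⟨x, hx, hxS, hDx⟩ := real_inc y K hy he idx him hidx
    refine ⟨x, hx, hxS, ?_⟩
    rw [hDx]
    funext l
    exact hz' l

theorem stretch_dec {m : ℕ} (y : ℕ → ℕ) (K : ℕ) (hy : ∀ i, i < K → y i < y (i + 1))
    (he : ∀ i, i + 1 < K → hd (y (i + 1)) (y (i + 2)) < hd (y i) (y (i + 1))) :
    ((range K).image (fun i => hd (y i) (y (i + 1)))).card = K ∧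
    ∀ z : Fin (m + 1) → ℕ, StrictMono z →
      (∀ l, z l ∈ (range K).image (fun i => hd (y i) (y (i + 1)))) →
      ∃ x : Fin (m + 2) → ℕ, StrictMono x ∧ (∀ l, ∃ i ≤ K, x l = y i) ∧
        D x = fun l => z l.rev := by
  classical
  have hm : ∀ i k, i < k → k < K → hd (y k) (y (k + 1)) < hd (y i) (y (i + 1)) :=
    e_anti (fun i => hd (y i) (y (i + 1))) K he
  refine ⟨?_, ?_⟩
  · rw [card_image_of_injOn, card_range]
    intro i hi k hk hik
    rw [coe_range, Set.mem_Iio] at hi hk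
    simp only at hik
    rcases lt_trichotomy i k with h | h | h
    · exact absurd hik (hm i k h hk).ne'
    · exact h
    · exact absurd hik (hm k i h hi).ne
  · intro z hz hzE
    have hch : ∀ l, ∃ i < K, hd (y i) (y (i + 1)) = z l := fun l => by
      simpa using mem_image.1 (hzE l)
    choose idx hidx hz' using hch
    have him : StrictMono (fun l : Fin (m + 1) => idx l.rev) := by
      intro a a' haa'
      by_contra hle
      push Not at hle
      have h3 := hz (Fin.rev_lt_rev.2 haa')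
      rw [← hz' a.rev, ← hz' a'.rev] at h3
      rcases Nat.lt_or_eq_of_le hle with h | h
      · exact absurd (hm _ _ h (hidx a.rev)) (not_lt.2 h3.le)
      · rw [h] at h3; exact lt_irrefl _ h3
    obtain ⟨x, hx, hxS, hDx⟩ := real_dec y K hy he (fun l => idx l.rev) him
      (fun l => hidx l.rev)
    refine ⟨x, hx, hxS, ?_⟩
    rw [hDx]
    funext l
    exact hz' l.rev

/-- **Stepping up.** -/
theorem step_up {m : ℕ} {κ κU κD : Type} (c : κ → Comparison ℕ (m + 2))
    (φU : κU → (Fin (m + 2) → ℕ) → Prop) (φD : κD → (Fin (m + 2) → ℕ) → Prop) (M n : ℕ)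
    (hU : NoHom φU M n) (hD : NoHom φD M n)
    (h0 : ∃ l, ∀ x : Fin (m + 3) → ℕ, StrictMono x → ((c l).Holds x ↔ D x 0 < D x 1))
    (h1 : ∀ l', ∃ l, ∀ x : Fin (m + 3) → ℕ, StrictMono x → StrictMono (D x) →
      ((c l).Holds x ↔ φU l' (D x)))
    (h2 : ∀ l', ∃ l, ∀ x : Fin (m + 3) → ℕ, StrictMono x → StrictAnti (D x) →
      ((c l).Holds x ↔ φD l' (fun i => D x i.rev))) :
    ∀ S ⊆ range (2 ^ M), S.card = n + m + 1 → ¬ Same c S := by
  classical
  intro S hS hc hsame
  obtain ⟨y, hyS, hym⟩ := enum S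
  rw [hc] at hyS hym
  have hy : ∀ i, i < n → y i < y (i + 1) := fun i hi => hym i (i + 1) (by omega) (by omega)
  have hySn : ∀ i ≤ n, y i ∈ S := fun i hi => hyS i (by omega)
  have hErange : (range n).image (fun i => hd (y i) (y (i + 1))) ⊆ range M := by
    intro e he
    obtain ⟨i, hi, rfl⟩ := mem_image.1 he
    rw [mem_range] at hi ⊢
    exact hd_lt (hy i hi) (mem_range.1 (hS (hyS _ (by omega))))
  -- windows
  have hwin : ∀ i, i + 1 < n → ∃ x : Fin (m + 3) → ℕ, StrictMono x ∧ (∀ l, x l ∈ S) ∧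
      D x 0 = hd (y i) (y (i + 1)) ∧ D x 1 = hd (y (i + 1)) (y (i + 2)) := by
    intro i hi
    refine ⟨fun l => y (i + l.val), fun a b hab => ?_, fun l => hyS _ (by omega), ?_, ?_⟩
    · exact hym _ _ (by have := Fin.lt_def.1 hab; omega) (by omega)
    · rfl
    · rfl
  obtain ⟨l0, hl0⟩ := h0
  by_cases hex : ∃ i, i + 1 < n ∧ hd (y i) (y (i + 1)) < hd (y (i + 1)) (y (i + 2))
  · obtain ⟨i0, hi0, hlt⟩ := hex
    have he : ∀ i, i + 1 < n → hd (y i) (y (i + 1)) < hd (y (i + 1)) (y (i + 2)) := by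
      intro i hi
      obtain ⟨x, hx, hxS, e0, e1⟩ := hwin i hi
      obtain ⟨x', hx', hxS', e0', e1'⟩ := hwin i0 hi0
      rw [← e0, ← e1, ← hl0 x hx, hsame x x' hx hx' hxS hxS' l0, hl0 x' hx', e0', e1']
      exact hlt
    obtain ⟨hc1, hreal⟩ := stretch_inc (m := m + 1) y n hy he
    refine hU _ hErange hc1 ?_
    intro z z' hz hz' hzE hzE' l'
    obtain ⟨x, hx, hxy, hDx⟩ := hreal z hz hzE
    obtain ⟨x', hx', hxy', hDx'⟩ := hreal z' hz' hzE'
    obtain ⟨l, hl⟩ := h1 l'
    have hxS : ∀ i, x i ∈ S := fun i => by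
      obtain ⟨k, hk, e⟩ := hxy i
      rw [e]; exact hySn k hk
    have hxS' : ∀ i, x' i ∈ S := fun i => by
      obtain ⟨k, hk, e⟩ := hxy' i
      rw [e]; exact hySn k hk
    have e1 := hl x hx (by rw [hDx]; exact hz)
    have e2 := hl x' hx' (by rw [hDx']; exact hz')
    rw [hDx] at e1
    rw [hDx'] at e2
    rw [← e1, ← e2]
    exact hsame x x' hx hx' hxS hxS' l
  · push Not at hex
    have he : ∀ i, i + 1 < n → hd (y (i + 1)) (y (i + 2)) < hd (y i) (y (i + 1)) := by
      intro i hi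
      have h3 := hex i hi
      have h4 := hd_ne (hy i (by omega)) (hy (i + 1) hi)
      exact lt_of_le_of_ne h3 h4.symm
    obtain ⟨hc1, hreal⟩ := stretch_dec (m := m + 1) y n hy he
    refine hD _ hErange hc1 ?_
    intro z z' hz hz' hzE hzE' l'
    obtain ⟨x, hx, hxy, hDx⟩ := hreal z hz hzE
    obtain ⟨x', hx', hxy', hDx'⟩ := hreal z' hz' hzE'
    obtain ⟨l, hl⟩ := h2 l'
    have hxS : ∀ i, x i ∈ S := fun i => by
      obtain ⟨k, hk, e⟩ := hxy i
      rw [e]; exact hySn k hk
    have hxS' : ∀ i, x' i ∈ S := fun i => by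
      obtain ⟨k, hk, e⟩ := hxy' i
      rw [e]; exact hySn k hk
    have e1 := hl x hx (by
      rw [hDx]
      intro a b hab
      exact hz (Fin.rev_lt_rev.2 hab))
    have e2 := hl x' hx' (by
      rw [hDx']
      intro a b hab
      exact hz' (Fin.rev_lt_rev.2 hab))
    simp only [hDx, Fin.rev_rev] at e1
    simp only [hDx', Fin.rev_rev] at e2
    rw [← e1, ← e2]
    exact hsame x x' hx hx' hxS hxS' l

end Pool.Agent.R734.CC
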