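import Pool.Agent.R734.CC.Step

/-!
# The upper bound for comparison colourings with a cut
-/

set_option autoImplicit false

namespace Pool.Agent.R734.CC

open Finset

theorem two_le_tow (j x : ℕ) (hx : 2 ≤ x) : 2 ≤ tow j x := by
  induction j with
  | zero => exact hx
  | succ j ih =>
    change 2 ≤ 2 ^ tow j x
    calc 2 = 2 ^ 1 := rfl
      _ ≤ 2 ^ tow j x := Nat.pow_le_pow_right (by norm_num) (by omega)

theorem tow_pow (j x c : ℕ) (hx : 2 ≤ x) (hc : 1 ≤ c) : (tow j x) ^ c ≤ tow j (x ^ c) := by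
  induction j with
  | zero => exact le_rfl
  | succ j ih =>
    change (2 ^ tow j x) ^ c ≤ 2 ^ tow j (x ^ c)
    rw [← pow_mul]
    apply Nat.pow_le_pow_right (by norm_num)
    refine le_trans ?_ ih
    obtain ⟨d, rfl⟩ : ∃ d, c = d + 1 := ⟨c - 1, by omega⟩
    rw [pow_succ, mul_comm]
    apply Nat.mul_le_mul_right
    calc d + 1 ≤ 2 ^ d := Nat.lt_two_pow_self
      _ ≤ tow j x ^ d := Nat.pow_le_pow_left (two_le_tow j x hx) d

theorem tow_mono (j : ℕ) {x y : ℕ} (h : x ≤ y) : tow j x ≤ tow j y := by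
  induction j with
  | zero => exact h
  | succ j ih => exact Nat.pow_le_pow_right (by norm_num) ih

theorem step_numerics (m p M : ℕ) (hM : 2 ≤ M) :
    (2 * (2 ^ m) ^ (M ^ p)) ^ M ≤ 2 ^ (M ^ (m + p + 1)) := by
  have e : (2 * (2 ^ m) ^ (M ^ p)) ^ M = 2 ^ ((1 + m * M ^ p) * M) := by
    rw [← pow_mul, ← pow_succ', ← pow_mul]
    ring_nf
  rw [e]
  apply Nat.pow_le_pow_right (by norm_num)
  have h1 : 1 ≤ M ^ p := Nat.one_le_pow _ _ (by omega)
  have h2 : m + 1 ≤ M ^ m := (Nat.lt_two_pow_self : m < 2 ^ m).trans_le (Nat.pow_le_pow_left hM m)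
  calc (1 + m * M ^ p) * M ≤ (M ^ p + m * M ^ p) * M := by gcongr
    _ = (m + 1) * M ^ p * M := by ring
    _ ≤ M ^ m * M ^ p * M := by gcongr
    _ = M ^ (m + p + 1) := by ring

/-- reversal of the order of the vertices -/
theorem const_rev {κ α : Type} [LinearOrder α] {s a : ℕ} (ha : a ≤ s)
    (F G : κ → (Fin (s + 1) → ℕ) → α) (N : ℕ) (S : Finset ℕ) (hS : ∀ v ∈ S, v ≤ N)
    (h : Const (α := αᵒᵈ) (s - a) (fun l B => OrderDual.toDual (G l (fun i => N - B i.rev)))
      (fun l B => OrderDual.toDual (F l (fun i => N - B i.rev))) (S.image (fun v => N - v))) :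
    Const a F G S := by
  intro x y hx hy hxS hyS l i j hi hj
  have key : ∀ z : Fin (s + 2) → ℕ, StrictMono z → (∀ i, z i ∈ S) →
      StrictMono (fun i : Fin (s + 2) => N - z i.rev) ∧
      (∀ i : Fin (s + 2), (fun i : Fin (s + 2) => N - z i.rev) i ∈ S.image (fun v => N - v)) ∧
      ∀ i : Fin (s + 2), (fun p : Fin (s + 1) => N -
        (i.rev.removeNth (fun i : Fin (s + 2) => N - z i.rev) : Fin (s + 1) → ℕ) p.rev) =
          i.removeNth z := by
    intro z hz hzS
    refine ⟨?_, ?_, ?_⟩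
    · intro p q hpq
      have h1 : z q.rev < z p.rev := hz (Fin.rev_lt_rev.2 hpq)
      have h2 := hS _ (hzS p.rev)
      simp only
      omega
    · intro p
      exact mem_image_of_mem _ (hzS _)
    · intro i
      funext p
      simp only [Fin.removeNth_apply]
      rw [Fin.rev_succAbove, Fin.rev_rev, Fin.rev_rev]
      have h2 := hS _ (hzS (i.succAbove p))
      omega
  obtain ⟨x1, x2, x3⟩ := key x hx hxS
  obtain ⟨y1, y2, y3⟩ := key y hy hyS
  have h1 := h _ _ x1 y1 x2 y2 l j.rev i.rev (by rw [Fin.val_rev]; omega)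
    (by rw [Fin.val_rev]; omega)
  beta_reduce at h1
  rw [x3, x3, y3, y3, OrderDual.toDual_lt_toDual, OrderDual.toDual_lt_toDual] at h1
  exact h1

/-- **The upper bound.** -/
theorem upper (s : ℕ) : ∀ a ≤ s, ∀ k : ℕ, ∃ C : ℕ, 1 ≤ C ∧ ∀ (κ : Type) [Fintype κ],
    Fintype.card κ = k → ∀ (α : Type) [LinearOrder α] (F G : κ → (Fin (s + 1) → ℕ) → α)
      (n : ℕ), 2 ≤ n → ∀ V : Finset ℕ,
      tow s (n ^ C) ≤ V.card → ∃ S ⊆ V, S.card = n ∧ Const a F G S := by
  classical
  induction s with
  | zero =>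
    intro a ha k
    obtain rfl : a = 0 := by omega
    refine ⟨3 ^ k, Nat.one_le_pow _ _ (by norm_num), ?_⟩
    intro κ _ hk α _ F G n hn V hV
    exact base F G n hn V (by rw [hk]; exact hV)
  | succ s ih =>
    have hstep : ∀ a ≤ s, ∀ k : ℕ, ∃ C : ℕ, 1 ≤ C ∧ ∀ (κ : Type) [Fintype κ],
        Fintype.card κ = k → ∀ (α : Type) [LinearOrder α] (F G : κ → (Fin (s + 2) → ℕ) → α)
          (n : ℕ), 2 ≤ n → ∀ V : Finset ℕ,
          tow (s + 1) (n ^ C) ≤ V.card → ∃ S ⊆ V, S.card = n ∧ Const a F G S := by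
      intro a ha k
      obtain ⟨C, hC1, hC⟩ := ih a ha (2 * k)
      refine ⟨C * (k * 3 + (3 * s + 4) + 1), Nat.mul_pos hC1 (by omega), ?_⟩
      intro κ _ hk α _ F G n hn V hV
      set M := tow s (n ^ C) with hM
      have hnC : 2 ≤ n ^ C := hn.trans (Nat.le_self_pow (by omega) n)
      have hM2 : 2 ≤ M := two_le_tow s _ hnC
      obtain ⟨W, hWV, hWc, F1, G1, h1⟩ := step a ha F G M V (by
        refine (step_numerics _ _ M hM2).trans (le_trans ?_ hV)
        change _ ≤ 2 ^ tow s _
        apply Nat.pow_le_pow_right (by norm_num)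
        rw [hk, pow_mul]
        exact tow_pow s (n ^ C) _ hnC (by omega))
      obtain ⟨S, hS, hSc, hSh⟩ := hC (κ ⊕ κ) (by rw [Fintype.card_sum, hk]; ring) (WithBot α) F1 G1
        n hn W hWc.ge
      exact ⟨S, hS.trans hWV, hSc, h1 S hS hSh⟩
    intro a ha k
    rcases Nat.lt_or_ge s a with h | h
    · obtain ⟨C, hC1, hC⟩ := hstep 0 (Nat.zero_le _) k
      refine ⟨C, hC1, ?_⟩
      intro κ _ hk α _ F G n hn V hV
      set N := V.sup id with hN
      have hVN : ∀ v ∈ V, v ≤ N := fun v hv => le_sup (f := id) hv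
      have hinj : ∀ T ⊆ V, Set.InjOn (fun v => N - v) (T : Set ℕ) := by
        intro T hT v hv w hw hvw
        have h1 := hVN v (hT hv)
        have h2 := hVN w (hT hw)
        simp only at hvw
        omega
      obtain ⟨S, hS, hSc, hSh⟩ := hC κ hk αᵒᵈ
        (fun l B => OrderDual.toDual (G l (fun i => N - B i.rev)))
        (fun l B => OrderDual.toDual (F l (fun i => N - B i.rev))) n hn (V.image (fun v => N - v))
        (by rw [card_image_of_injOn (hinj V Subset.rfl)]; exact hV)
      have hSV : S.image (fun v => N - v) ⊆ V := by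
        intro v hv
        obtain ⟨w, hw, rfl⟩ := mem_image.1 hv
        obtain ⟨v', hv', rfl⟩ := mem_image.1 (hS hw)
        have h1 := hVN v' hv'
        rw [show N - (N - v') = v' by omega]
        exact hv'
      have hSN : ∀ w ∈ S, w ≤ N := by
        intro w hw
        obtain ⟨v', hv', rfl⟩ := mem_image.1 (hS hw)
        exact Nat.sub_le _ _
      have hSS : (S.image (fun v => N - v)).image (fun v => N - v) = S := by
        rw [image_image]
        conv_rhs => rw [← image_id (s := S)]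
        apply image_congr
        intro w hw
        have h1 := hSN w hw
        simp only [Function.comp_apply, id]
        omega
      refine ⟨S.image (fun v => N - v), hSV, ?_, ?_⟩
      · rw [card_image_of_injOn, hSc]
        intro v hv w hw hvw
        have h1 := hSN v hv
        have h2 := hSN w hw
        simp only at hvw
        omega
      · refine const_rev ha F G N _ (fun v hv => hVN v (hSV hv)) ?_
        rw [hSS, show s + 1 - a = 0 by omega]
        exact hSh
    · exact hstep a h k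

end Pool.Agent.R734.CC
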